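import Pool.Agent.Lib.MP_61c8b8_co.Bridge

set_option autoImplicit false

namespace Pool.Agent.Results.MP_61c8b8_co.Characterization

open Pool.Agent.Lib.MP_61c8b8_co

/-- For every `n ≥ 0`, a positive (monotone) Boolean function with exactly `n` relevant variables
has exactly `n + 1` extremal points if and only if it is linear read-once. -/
theorem result (n m : ℕ) (f : (Fin m → Bool) → Bool) (hf : Monotone f)
    (hn : {i | Relevant f i}.ncard = n) :
    (extremalPoints f).ncard = n + 1 ↔ LinearReadOnce f := by
  rw [← hn]
  exact characterization f hf

end Pool.Agent.Results.MP_61c8b8_co.Characterization
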