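import Pool.Agent.Lib.MP_61c8b8_co.Bridge

set_option autoImplicit false

namespace Pool.Agent.Results.MP_61c8b8_co.LowerBound

open Pool.Agent.Lib.MP_61c8b8_co

/-- Every positive (monotone) Boolean function with exactly `n` relevant variables has at least
`n + 1` extremal points. -/
theorem result (n m : ℕ) (f : (Fin m → Bool) → Bool) (hf : Monotone f)
    (hn : {i | Relevant f i}.ncard = n) :
    n + 1 ≤ (extremalPoints f).ncard := by
  rw [← hn]
  exact lower_bound_bool f hf

end Pool.Agent.Results.MP_61c8b8_co.LowerBound
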